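import Mathlib
import Pool.Agent.H55.SubwordDefs
import Pool.Agent.H55.SubwordCount

set_option autoImplicit false

/-!
The number `a_k(n)` of subword complexity sequences of words of length `n` over `k` letters grows
subexponentially, so `a_k(n)` is not asymptotic to `log_2(k) 2^(n/2)`, for any `k ≥ 2`.

The definitions used (`complexity`, `complexitySeq`, `numSeq`) are in
`Pool/Agent/H55/SubwordDefs.lean`.
-/

namespace Pool.Agent.Results.MP_c3017e_co.Disproof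

open Filter Topology Pool.Agent.H55.Subword

/-- Sanity checks of the definition against the values in the problem: `a_2(3) = 2`,
`a_2(5) = 4`. -/
theorem sanity : numSeq 2 3 = 2 ∧ numSeq 2 5 = 4 := by
  constructor <;> decide

/-- With `t ^ 3 ≥ n`, the count is at most `(n + 2) ^ (57 t ^ 2)`. -/
lemma numSeq_le_pow (k n t : ℕ) (ht : 1 ≤ t) (hnt : n ≤ t ^ 3) :
    numSeq k n ≤ (n + 2) ^ (57 * t ^ 2) := by
  have h0 : 0 < t ^ 2 := by positivity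
  have h1 := numSeq_le k n h0
  have h2 : n / t ^ 2 ≤ t := by
    apply Nat.div_le_of_le_mul
    calc n ≤ t ^ 3 := hnt
      _ = t ^ 2 * t := by ring
  refine le_trans h1 ?_
  have h3 : ((n + 2) * (n + 2)) ^ (6 * ((n / t ^ 2 + 1) * (n / t ^ 2 + 1))) =
      (n + 2) ^ (2 * (6 * ((n / t ^ 2 + 1) * (n / t ^ 2 + 1)))) := by
    rw [← pow_two, ← pow_mul]
  rw [h3, ← pow_add]
  apply Nat.pow_le_pow_right (by omega)
  have h4 : (n / t ^ 2 + 1) * (n / t ^ 2 + 1) ≤ (2 * t) * (2 * t) :=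
    Nat.mul_le_mul (by omega) (by omega)
  have h5 : 1 ≤ t ^ 2 := h0
  nlinarith

lemma numSeq_le_exp (k n : ℕ) (hn : 1 ≤ n) :
    (numSeq k n : ℝ) ≤ Real.exp (456 * (n : ℝ) ^ (2 / 3 : ℝ) * Real.log ((n : ℝ) + 1)) := by
  have hn' : (1 : ℝ) ≤ n := by exact_mod_cast hn
  have hn0 : (0 : ℝ) ≤ n := by linarith
  set x : ℝ := (n : ℝ) ^ (1 / 3 : ℝ) with hx
  have hx1 : 1 ≤ x := Real.one_le_rpow hn' (by norm_num)
  have hx3 : x ^ 3 = n := by
    rw [hx, ← Real.rpow_natCast, ← Real.rpow_mul hn0]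
    norm_num
  have hx2 : x ^ 2 = (n : ℝ) ^ (2 / 3 : ℝ) := by
    rw [hx, ← Real.rpow_natCast, ← Real.rpow_mul hn0]
    norm_num
  set t : ℕ := ⌈x⌉₊ with ht
  have ht1 : x ≤ t := Nat.le_ceil x
  have ht2 : (t : ℝ) < x + 1 := Nat.ceil_lt_add_one (by linarith)
  have ht3 : 1 ≤ t := by
    have : (1 : ℝ) ≤ t := by linarith
    exact_mod_cast this
  have hnt : n ≤ t ^ 3 := by
    have : (n : ℝ) ≤ (t : ℝ) ^ 3 := by
      rw [← hx3]
      gcongr
    exact_mod_cast this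
  have h1 := numSeq_le_pow k n t ht3 hnt
  have h2 : (numSeq k n : ℝ) ≤ ((n : ℝ) + 2) ^ (57 * t ^ 2) := by
    exact_mod_cast h1
  have h3 : ((n : ℝ) + 2) ^ (57 * t ^ 2) = Real.exp ((57 * t ^ 2 : ℕ) * Real.log ((n : ℝ) + 2)) := by
    rw [Real.exp_nat_mul, Real.exp_log (by linarith)]
  rw [h3] at h2
  refine le_trans h2 (Real.exp_le_exp.mpr ?_)
  have h4 : Real.log ((n : ℝ) + 2) ≤ 2 * Real.log ((n : ℝ) + 1) := by
    have : (2 : ℝ) * Real.log ((n : ℝ) + 1) = Real.log (((n : ℝ) + 1) ^ 2) := by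
      rw [Real.log_pow]; norm_num
    rw [this]
    apply Real.log_le_log (by linarith)
    nlinarith
  have h5 : (t : ℝ) ^ 2 ≤ 4 * (n : ℝ) ^ (2 / 3 : ℝ) := by
    rw [← hx2]
    have : (t : ℝ) ≤ 2 * x := by linarith
    nlinarith [Nat.cast_nonneg (α := ℝ) t]
  have h6 : 0 ≤ Real.log ((n : ℝ) + 1) := Real.log_nonneg (by linarith)
  have h7 : 0 ≤ (n : ℝ) ^ (2 / 3 : ℝ) := by positivity
  push_cast
  calc (57 * (t : ℝ) ^ 2) * Real.log ((n : ℝ) + 2)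
      ≤ (57 * (4 * (n : ℝ) ^ (2 / 3 : ℝ))) * (2 * Real.log ((n : ℝ) + 1)) := by
        apply mul_le_mul (by linarith) h4 (Real.log_nonneg (by linarith)) (by positivity)
    _ = 456 * (n : ℝ) ^ (2 / 3 : ℝ) * Real.log ((n : ℝ) + 1) := by ring

lemma tendsto_ratio (k : ℕ) (hk : 2 ≤ k) :
    Tendsto (fun n : ℕ => (numSeq k n : ℝ) / (Real.logb 2 k * (2 : ℝ) ^ ((n : ℝ) / 2)))
      atTop (𝓝 0) := by
  have hlogk : 0 < Real.logb 2 (k : ℝ) := by
    apply Real.logb_pos (by norm_num)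
    have : (2 : ℝ) ≤ k := by exact_mod_cast hk
    linarith
  -- the comparison function
  have hlim : Tendsto (fun n : ℕ => (n : ℝ) * (5472 * (n : ℝ) ^ (-(1 / 6) : ℝ) - Real.log 2 / 2))
      atTop atBot := by
    apply Tendsto.atTop_mul_neg (C := -(Real.log 2 / 2))
    · have := Real.log_pos (show (1 : ℝ) < 2 by norm_num); linarith
    · exact tendsto_natCast_atTop_atTop
    · have h1 : Tendsto (fun n : ℕ => (n : ℝ) ^ (-(1 / 6) : ℝ)) atTop (𝓝 0) :=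
        (tendsto_rpow_neg_atTop (by norm_num : (0 : ℝ) < 1 / 6)).comp tendsto_natCast_atTop_atTop
      have h2 := (h1.const_mul 5472).sub_const (Real.log 2 / 2)
      simpa using h2
  have hlim2 : Tendsto (fun n : ℕ => Real.exp ((n : ℝ) *
      (5472 * (n : ℝ) ^ (-(1 / 6) : ℝ) - Real.log 2 / 2)) / Real.logb 2 k) atTop (𝓝 0) := by
    have := (Real.tendsto_exp_atBot.comp hlim).div_const (Real.logb 2 k)
    simpa using this
  refine squeeze_zero' ?_ ?_ hlim2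
  · filter_upwards with n
    positivity
  · filter_upwards [eventually_ge_atTop 1] with n hn
    have hn' : (1 : ℝ) ≤ n := by exact_mod_cast hn
    have hn0 : (0 : ℝ) < n := by linarith
    have h1 := numSeq_le_exp k n hn
    have h2 : Real.log ((n : ℝ) + 1) ≤ 12 * (n : ℝ) ^ (1 / 6 : ℝ) := by
      have h3 := Real.log_le_rpow_div (x := (n : ℝ) + 1) (by linarith)
        (show (0 : ℝ) < 1 / 6 by norm_num)
      have h4 : ((n : ℝ) + 1) ^ (1 / 6 : ℝ) ≤ (2 * (n : ℝ)) ^ (1 / 6 : ℝ) :=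
        Real.rpow_le_rpow (by linarith) (by linarith) (by norm_num)
      have h5 : (2 * (n : ℝ)) ^ (1 / 6 : ℝ) = (2 : ℝ) ^ (1 / 6 : ℝ) * (n : ℝ) ^ (1 / 6 : ℝ) :=
        Real.mul_rpow (by norm_num) hn0.le
      have h6 : (2 : ℝ) ^ (1 / 6 : ℝ) ≤ 2 := by
        calc (2 : ℝ) ^ (1 / 6 : ℝ) ≤ (2 : ℝ) ^ (1 : ℝ) :=
              Real.rpow_le_rpow_of_exponent_le (by norm_num) (by norm_num)
          _ = 2 := by norm_num
      have h7 : 0 ≤ (n : ℝ) ^ (1 / 6 : ℝ) := by positivity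
      have h8 : (2 : ℝ) ^ (1 / 6 : ℝ) * (n : ℝ) ^ (1 / 6 : ℝ) ≤ 2 * (n : ℝ) ^ (1 / 6 : ℝ) :=
        mul_le_mul_of_nonneg_right h6 h7
      calc Real.log ((n : ℝ) + 1) ≤ ((n : ℝ) + 1) ^ (1 / 6 : ℝ) / (1 / 6) := h3
        _ = 6 * ((n : ℝ) + 1) ^ (1 / 6 : ℝ) := by ring
        _ ≤ 6 * (2 * (n : ℝ) ^ (1 / 6 : ℝ)) := by
          apply mul_le_mul_of_nonneg_left _ (by norm_num)
          linarith
        _ = 12 * (n : ℝ) ^ (1 / 6 : ℝ) := by ring
    have h9 : 456 * (n : ℝ) ^ (2 / 3 : ℝ) * Real.log ((n : ℝ) + 1) ≤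
        5472 * ((n : ℝ) * (n : ℝ) ^ (-(1 / 6) : ℝ)) := by
      have e1 : (n : ℝ) * (n : ℝ) ^ (-(1 / 6) : ℝ) = (n : ℝ) ^ (2 / 3 : ℝ) * (n : ℝ) ^ (1 / 6 : ℝ) := by
        rw [← Real.rpow_add hn0]
        nth_rewrite 1 [← Real.rpow_one (n : ℝ)]
        rw [← Real.rpow_add hn0]
        norm_num
      rw [e1]
      have h10 : 0 ≤ 456 * (n : ℝ) ^ (2 / 3 : ℝ) := by positivity
      calc 456 * (n : ℝ) ^ (2 / 3 : ℝ) * Real.log ((n : ℝ) + 1)
          ≤ 456 * (n : ℝ) ^ (2 / 3 : ℝ) * (12 * (n : ℝ) ^ (1 / 6 : ℝ)) :=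
            mul_le_mul_of_nonneg_left h2 h10
        _ = 5472 * ((n : ℝ) ^ (2 / 3 : ℝ) * (n : ℝ) ^ (1 / 6 : ℝ)) := by ring
    have h11 : (2 : ℝ) ^ ((n : ℝ) / 2) = Real.exp ((n : ℝ) * (Real.log 2 / 2)) := by
      rw [Real.rpow_def_of_pos (by norm_num)]
      congr 1
      ring
    rw [h11]
    have h12 : (numSeq k n : ℝ) / (Real.logb 2 k * Real.exp ((n : ℝ) * (Real.log 2 / 2))) =
        ((numSeq k n : ℝ) / Real.exp ((n : ℝ) * (Real.log 2 / 2))) / Real.logb 2 k := by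
      rw [div_div, mul_comm]
    rw [h12]
    apply div_le_div_of_nonneg_right _ hlogk.le
    rw [div_le_iff₀ (Real.exp_pos _), ← Real.exp_add]
    refine le_trans h1 (Real.exp_le_exp.mpr ?_)
    calc 456 * (n : ℝ) ^ (2 / 3 : ℝ) * Real.log ((n : ℝ) + 1)
        ≤ 5472 * ((n : ℝ) * (n : ℝ) ^ (-(1 / 6) : ℝ)) := h9
      _ = _ := by ring

/-- **Disproof of the conjecture `a_k(n) ~ log_2(k) 2^(n/2)`, for every `k ≥ 2`.**
The number `a_k(n)` of subword complexity sequences of words of length `n` over `k` letters is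
at most `exp(C n^(2/3) log(n+1))`, with an absolute constant `C`; in particular the ratio
`a_k(n) / (log_2(k) 2^(n/2))` tends to `0`, and not to `1`. -/
theorem result :
    ∃ C : ℝ, ∀ k : ℕ, 2 ≤ k →
      (∀ n : ℕ, 1 ≤ n → (numSeq k n : ℝ) ≤
        Real.exp (C * (n : ℝ) ^ (2 / 3 : ℝ) * Real.log ((n : ℝ) + 1))) ∧
      Tendsto (fun n : ℕ => (numSeq k n : ℝ) / (Real.logb 2 k * (2 : ℝ) ^ ((n : ℝ) / 2)))
        atTop (𝓝 0) ∧
      ¬ Tendsto (fun n : ℕ => (numSeq k n : ℝ) / (Real.logb 2 k * (2 : ℝ) ^ ((n : ℝ) / 2)))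
        atTop (𝓝 1) := by
  refine ⟨456, fun k hk => ⟨fun n hn => numSeq_le_exp k n hn, tendsto_ratio k hk, ?_⟩⟩
  intro h
  exact zero_ne_one (tendsto_nhds_unique (tendsto_ratio k hk) h)

end Pool.Agent.Results.MP_c3017e_co.Disproof
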